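import Mathlib

/-!
# The labelling of Matousek for the Kneser graphs
-/

set_option autoImplicit false

namespace Pool.Agent.H.MP_0447ec_lc.KL

open Finset

/-- an odd function with values `1` and `-1` away from `0` -/
theorem exists_eps (n : ℕ) : ∃ e : (Fin n → ℤ) → ℤ, (∀ x, e (-x) = -e x) ∧
    (∀ x, x ≠ 0 → e x = 1 ∨ e x = -1) := by
  refine ⟨fun x => (SignType.sign (toLex x) : ℤ), fun x => ?_, fun x hx => ?_⟩
  · change ((SignType.sign (toLex (-x)) : SignType) : ℤ) = -((SignType.sign (toLex x) : SignType) : ℤ)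
    have h : toLex (-x) = -toLex x := rfl
    rw [h, Left.sign_neg, SignType.coe_neg]
  · have h : toLex x ≠ 0 := fun h => hx (toLex.injective h)
    rcases lt_or_gt_of_ne h with h1 | h1
    · right
      change ((SignType.sign (toLex x) : SignType) : ℤ) = -1
      rw [sign_neg h1]; rfl
    · left
      change ((SignType.sign (toLex x) : SignType) : ℤ) = 1
      rw [sign_pos h1]; rfl

section

variable {n : ℕ}

/-- the positive coordinates -/
def ps (x : Fin n → ℤ) : Finset (Fin n) := univ.filter fun i => 0 < x i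

/-- the negative coordinates -/
def ng (x : Fin n → ℤ) : Finset (Fin n) := univ.filter fun i => x i < 0

lemma mem_ps {x : Fin n → ℤ} {i : Fin n} : i ∈ ps x ↔ 0 < x i := by simp [ps]

lemma mem_ng {x : Fin n → ℤ} {i : Fin n} : i ∈ ng x ↔ x i < 0 := by simp [ng]

lemma ps_neg (x : Fin n → ℤ) : ps (-x) = ng x := by ext i; simp [ps, ng]

lemma ng_neg (x : Fin n → ℤ) : ng (-x) = ps x := by ext i; simp [ps, ng]

lemma disj (x : Fin n → ℤ) : Disjoint (ps x) (ng x) := by
  rw [Finset.disjoint_left]
  intro i hi hj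
  rw [mem_ps] at hi
  rw [mem_ng] at hj
  omega

/-- the number of nonzero coordinates -/
def sz (x : Fin n → ℤ) : ℕ := (ps x).card + (ng x).card

lemma sz_neg (x : Fin n → ℤ) : sz (-x) = sz x := by
  unfold sz; rw [ps_neg, ng_neg, add_comm]

lemma sz_pos {x : Fin n → ℤ} (hx : x ≠ 0) : 0 < sz x := by
  obtain ⟨i, hi⟩ := Function.ne_iff.1 hx
  rcases lt_or_gt_of_ne hi with h | h
  · have : 0 < (ng x).card := card_pos.2 ⟨i, mem_ng.2 h⟩
    unfold sz; omega
  · have : 0 < (ps x).card := card_pos.2 ⟨i, mem_ps.2 h⟩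
    unfold sz; omega

lemma sz_zero : sz (0 : Fin n → ℤ) = 0 := by simp [sz, ps, ng]

open Classical in
/-- the least colour of a `k`-subset, `n` if there is none -/
noncomputable def mc (k : ℕ) (c : Finset (Fin n) → ℕ) (A : Finset (Fin n)) : ℕ :=
  if k ≤ A.card then sInf {m | ∃ S, S ⊆ A ∧ S.card = k ∧ c S = m} else n

lemma mc_attained {k : ℕ} {c : Finset (Fin n) → ℕ} {A : Finset (Fin n)} (h : k ≤ A.card) :
    ∃ S, S ⊆ A ∧ S.card = k ∧ c S = mc k c A := by
  unfold mc
  rw [if_pos h]
  obtain ⟨S, hS, hk⟩ := exists_subset_card_eq h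
  exact Nat.sInf_mem (s := {m | ∃ S, S ⊆ A ∧ S.card = k ∧ c S = m}) ⟨c S, S, hS, hk, rfl⟩

lemma mc_lt {k : ℕ} (hk : 1 ≤ k) (hn : 2 * k ≤ n) {c : Finset (Fin n) → ℕ}
    (hc : ∀ S : Finset (Fin n), S.card = k → c S < n - 2 * k + 1) {A : Finset (Fin n)}
    (h : k ≤ A.card) : mc k c A < n - 2 * k + 1 := by
  obtain ⟨S, -, h1, h2⟩ := mc_attained (c := c) h
  rw [← h2]
  exact hc S h1

lemma mc_eq {k : ℕ} {c : Finset (Fin n) → ℕ} {A : Finset (Fin n)} (h : ¬ k ≤ A.card) :
    mc k c A = n := by
  unfold mc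
  rw [if_neg h]

end

theorem exists_label (n k : ℕ) (hk : 1 ≤ k) (hn : 2 * k ≤ n) (c : Finset (Fin n) → ℕ)
    (hc : ∀ S : Finset (Fin n), S.card = k → c S < n - 2 * k + 1)
    (hno : ∀ S T : Finset (Fin n), S.card = k → T.card = k → Disjoint S T → c S ≠ c T) :
    ∃ lam : (Fin n → ℤ) → ℤ,
      (∀ x, lam (-x) = - lam x) ∧ (∀ x, x ≠ 0 → lam x ≠ 0) ∧
      (∀ x y, (∀ i, x i = 0 ∨ x i = 1 ∨ x i = -1) → (∀ i, y i = 0 ∨ y i = 1 ∨ y i = -1) →
        x ≠ 0 → (∀ i, x i ≠ 0 → y i = x i) → lam x ≠ - lam y) ∧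
      (∀ x, |lam x| < (n : ℤ)) := by
  classical
  obtain ⟨e, he1, he2⟩ := exists_eps n
  -- the two least colours are different
  have hneq : ∀ A B : Finset (Fin n), Disjoint A B → (k ≤ A.card ∨ k ≤ B.card) →
      mc k c A ≠ mc k c B := by
    intro A B hAB h heq
    have hA : k ≤ A.card := by
      by_contra hA
      have h1 := mc_lt hk hn hc (h.resolve_left hA)
      rw [← heq, mc_eq hA] at h1
      omega
    have hB : k ≤ B.card := by
      by_contra hB
      have h1 := mc_lt hk hn hc hA
      rw [heq, mc_eq hB] at h1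
      omega
    obtain ⟨S, hS, h1, h2⟩ := mc_attained (c := c) hA
    obtain ⟨T, hT, h3, h4⟩ := mc_attained (c := c) hB
    exact hno S T h1 h3 (disjoint_of_subset_left hS (disjoint_of_subset_right hT hAB))
      (by rw [h2, h4, heq])
  have hbig : ∀ x : Fin n → ℤ, ¬ sz x ≤ 2 * k - 2 → k ≤ (ps x).card ∨ k ≤ (ng x).card := by
    intro x hx
    unfold sz at hx
    omega
  obtain ⟨lam, hlam⟩ : ∃ lam : (Fin n → ℤ) → ℤ, ∀ x, lam x = if sz x ≤ 2 * k - 2 then
      e x * (sz x : ℤ) else if mc k c (ps x) < mc k c (ng x) then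
        ((2 * k - 1 + mc k c (ps x) : ℕ) : ℤ) else -((2 * k - 1 + mc k c (ng x) : ℕ) : ℤ) :=
    ⟨_, fun _ => rfl⟩
  -- values
  have vs : ∀ x, sz x ≤ 2 * k - 2 → lam x = e x * (sz x : ℤ) := fun x hx => by
    rw [hlam, if_pos hx]
  have vb : ∀ x, ¬ sz x ≤ 2 * k - 2 →
      (lam x = ((2 * k - 1 + mc k c (ps x) : ℕ) : ℤ) ∧ k ≤ (ps x).card) ∨
      (lam x = -((2 * k - 1 + mc k c (ng x) : ℕ) : ℤ) ∧ k ≤ (ng x).card) := by
    intro x hx
    rw [hlam, if_neg hx]
    have h1 := hneq _ _ (disj x) (hbig x hx)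
    split_ifs with h2
    · left
      refine ⟨rfl, ?_⟩
      by_contra h3
      rw [mc_eq h3] at h2
      by_cases h4 : k ≤ (ng x).card
      · have := mc_lt hk hn hc h4
        omega
      · rw [mc_eq h4] at h2
        omega
    · right
      refine ⟨rfl, ?_⟩
      by_contra h3
      rw [mc_eq h3] at h2 h1
      have h4 := (hbig x hx).resolve_right h3
      have := mc_lt hk hn hc h4
      omega
  have hes : ∀ x : Fin n → ℤ, x ≠ 0 → sz x ≤ 2 * k - 2 → |lam x| = (sz x : ℤ) := by
    intro x hx h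
    rw [vs x h]
    rcases he2 x hx with h1 | h1
    · rw [h1, one_mul, Nat.abs_cast]
    · rw [h1, neg_one_mul, abs_neg, Nat.abs_cast]
  refine ⟨lam, ?_, ?_, ?_, ?_⟩
  · intro x
    rw [hlam, hlam, sz_neg, ps_neg, ng_neg, he1]
    by_cases h : sz x ≤ 2 * k - 2
    · rw [if_pos h, if_pos h, neg_mul]
    · rw [if_neg h, if_neg h]
      have h1 := hneq _ _ (disj x) (hbig x h)
      rcases lt_or_gt_of_ne h1 with h2 | h2
      · rw [if_pos h2, if_neg (not_lt.2 h2.le)]
      · rw [if_neg (not_lt.2 h2.le), if_pos h2, neg_neg]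
  · intro x hx
    by_cases h : sz x ≤ 2 * k - 2
    · have h1 := hes x hx h
      have h2 := sz_pos hx
      intro h3
      rw [h3, abs_zero] at h1
      omega
    · rcases vb x h with h1 | h1
      · rw [h1.1]; omega
      · rw [h1.1]; omega
  · intro x y hx hy hx0 hxy
    have hps : ps x ⊆ ps y := by
      intro i hi
      rw [mem_ps] at hi ⊢
      rw [hxy i (by omega)]
      exact hi
    have hng : ng x ⊆ ng y := by
      intro i hi
      rw [mem_ng] at hi ⊢
      rw [hxy i (by omega)]
      exact hi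
    have c1 := card_le_card hps
    have c2 := card_le_card hng
    have hy0 : y ≠ 0 := by
      intro h
      obtain ⟨i, hi⟩ := Function.ne_iff.1 hx0
      have h1 := hxy i hi
      rw [h] at h1
      exact hi h1.symm
    intro heq
    have habs : |lam x| = |lam y| := by rw [heq, abs_neg]
    by_cases h1 : sz x ≤ 2 * k - 2
    · by_cases h2 : sz y ≤ 2 * k - 2
      · rw [hes x hx0 h1, hes y hy0 h2] at habs
        have h3 : sz x = sz y := by exact_mod_cast habs
        unfold sz at h3
        have e1 : ps x = ps y := eq_of_subset_of_card_le hps (by omega)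
        have e2 : ng x = ng y := eq_of_subset_of_card_le hng (by omega)
        have h4 : x = y := by
          funext i
          by_cases h5 : x i = 0
          · have h6 : ¬ 0 < y i := by
              rw [← mem_ps, ← e1, mem_ps]; omega
            have h7 : ¬ y i < 0 := by
              rw [← mem_ng, ← e2, mem_ng]; omega
            omega
          · exact (hxy i h5).symm
        rw [← h4] at heq
        have h5 := hes x hx0 h1
        have h6 := sz_pos hx0
        have h7 : lam x = 0 := by omega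
        rw [h7, abs_zero] at h5
        omega
      · rw [hes x hx0 h1] at habs
        rcases vb y h2 with h3 | h3
        · rw [h3.1, Nat.abs_cast] at habs
          omega
        · rw [h3.1, abs_neg, Nat.abs_cast] at habs
          omega
    · have h2 : ¬ sz y ≤ 2 * k - 2 := by unfold sz at h1 ⊢; omega
      rcases vb x h1 with ⟨h3, h3'⟩ | ⟨h3, h3'⟩
      · rcases vb y h2 with ⟨h4, h4'⟩ | ⟨h4, h4'⟩
        · rw [h3, h4] at heq
          omega
        · rw [h3, h4, neg_neg] at heq
          obtain ⟨S, hS, s1, s2⟩ := mc_attained (c := c) h3'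
          obtain ⟨T, hT, t1, t2⟩ := mc_attained (c := c) h4'
          refine hno S T s1 t1 (disjoint_of_subset_left (hS.trans hps)
            (disjoint_of_subset_right hT (disj y))) ?_
          rw [s2, t2]
          omega
      · rcases vb y h2 with ⟨h4, h4'⟩ | ⟨h4, h4'⟩
        · rw [h3, h4] at heq
          obtain ⟨S, hS, s1, s2⟩ := mc_attained (c := c) h3'
          obtain ⟨T, hT, t1, t2⟩ := mc_attained (c := c) h4'
          refine hno S T s1 t1 (disjoint_of_subset_left (hS.trans hng)
            (disjoint_of_subset_right hT (disj y).symm)) ?_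
          rw [s2, t2]
          omega
        · rw [h3, h4] at heq
          omega
  · intro x
    by_cases hx0 : x = 0
    · have h : lam x = 0 := by
        rw [vs x (by rw [hx0, sz_zero]; omega), hx0, sz_zero]
        simp
      rw [h, abs_zero]
      omega
    · by_cases h : sz x ≤ 2 * k - 2
      · rw [hes x hx0 h]
        omega
      · rcases vb x h with ⟨h3, h3'⟩ | ⟨h3, h3'⟩
        · have := mc_lt hk hn hc h3'
          rw [h3, Nat.abs_cast]
          omega
        · have := mc_lt hk hn hc h3'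
          rw [h3, abs_neg, Nat.abs_cast]
          omega

end Pool.Agent.H.MP_0447ec_lc.KL
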