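import Pool.Agent.H.MP_0447ec_lc.KL.Tucker
import Pool.Agent.H.MP_0447ec_lc.KL.Label

/-!
# The Lovasz theorem on the chromatic number of Kneser graphs
-/

namespace Pool.Agent.H.MP_0447ec_lc.KL

/-- In a colouring of the `k`-element subsets of an `n`-element set with `n - 2 k + 1` colours
there are two disjoint sets of the same colour. -/
theorem kneser (n k : ℕ) (hk : 1 ≤ k) (hn : 2 * k ≤ n) (c : Finset (Fin n) → ℕ)
    (hc : ∀ S : Finset (Fin n), S.card = k → c S < n - 2 * k + 1) :
    ∃ S T : Finset (Fin n), S.card = k ∧ T.card = k ∧ Disjoint S T ∧ c S = c T := by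
  by_contra hno
  push Not at hno
  obtain ⟨lam, h1, h2, h3, h4⟩ := exists_label n k hk hn c hc hno
  obtain ⟨x, -, -, hx⟩ := tucker n (by omega) lam h1 h2 h3
  exact absurd (h4 x) (not_lt.2 hx)

end Pool.Agent.H.MP_0447ec_lc.KL
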