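import Mathlib

/-!
# The octahedral Tucker lemma

Combinatorial proof by counting alternating labellings of chains of sign vectors modulo two.
-/

namespace Pool.Agent.H.MP_0447ec_lc.KL

open Equiv Finset

/-- Strictly increasing absolute values, alternating signs, first sign positive. -/
def Alt {n : ℕ} (a : Fin n → ℤ) : Prop :=
  (∀ i j : Fin n, i < j → |a i| < |a j|) ∧ ∀ i : Fin n, 0 < (-1 : ℤ) ^ (i : ℕ) * a i

open Classical in
/-- The indicator of a proposition in the field with two elements. -/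
noncomputable def ind (p : Prop) : ZMod 2 := if p then 1 else 0

theorem ind_true {p : Prop} (h : p) : ind p = 1 := if_pos h

theorem ind_false {p : Prop} (h : ¬ p) : ind p = 0 := if_neg h

theorem ind_congr {p q : Prop} (h : p ↔ q) : ind p = ind q := by rw [propext h]

theorem ind_ne_zero {p : Prop} (h : ind p ≠ 0) : p := by
  by_contra h'
  exact h (ind_false h')

/-- The number modulo two of the orderings of the labels that alternate. -/
noncomputable def P {n : ℕ} (l : Fin n → ℤ) : ZMod 2 := ∑ r : Perm (Fin n), ind (Alt (l ∘ r))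

theorem P_perm {n : ℕ} (l : Fin n → ℤ) (s : Perm (Fin n)) : P (l ∘ s) = P l := by
  unfold P
  exact Fintype.sum_equiv (Equiv.mulLeft s) _ _ (fun r => rfl)

/-- The place `t` for `b` in the alternating sequence `a`. -/
def Cand {n : ℕ} (b : ℤ) (a : Fin n → ℤ) (t : ℕ) : Prop :=
  0 < (-1 : ℤ) ^ (t + 1) * b ∧ (∀ j : Fin n, (j : ℕ) + 1 < t → |a j| < |b|) ∧
    (∀ j : Fin n, t < (j : ℕ) + 1 → |b| < |a j|)

theorem sgn_pos (b : ℤ) (hb : b ≠ 0) (t : ℕ) (h : ¬ 0 < (-1 : ℤ) ^ t * b) :
    0 < (-1 : ℤ) ^ (t + 1) * b := by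
  rw [pow_succ]
  rcases neg_one_pow_eq_or ℤ t with h' | h' <;> rw [h'] at h ⊢
  · rw [one_mul] at h
    have : b < 0 := lt_of_le_of_ne (not_lt.1 h) hb
    linarith
  · have : 0 < b := lt_of_le_of_ne (by linarith) hb.symm
    linarith

theorem sgn_not {b : ℤ} {t : ℕ} (h : 0 < (-1 : ℤ) ^ t * b) : ¬ 0 < (-1 : ℤ) ^ (t + 1) * b := by
  rw [pow_succ]
  intro h'
  linarith

theorem cand_exists {n : ℕ} {b : ℤ} {a : Fin n → ℤ} (ha : Alt a) (hb : b ≠ 0)
    (hab : ∀ j, a j ≠ - b) : ∃ t, t ≤ n + 1 ∧ Cand b a t := by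
  obtain ⟨m, hm1, hm2, hm3⟩ : ∃ m, m ≤ n ∧ (∀ j : Fin n, (j : ℕ) < m → |a j| < |b|) ∧
      (∀ j : Fin n, m ≤ (j : ℕ) → |b| ≤ |a j|) := by
    classical
    have hex : ∃ m, m = n ∨ ∃ h : m < n, |b| ≤ |a ⟨m, h⟩| := ⟨n, Or.inl rfl⟩
    refine ⟨Nat.find hex, ?_, ?_, ?_⟩
    · exact Nat.find_min' hex (Or.inl rfl)
    · intro j hj
      have h := Nat.find_min hex hj
      by_contra hc
      exact h (Or.inr ⟨j.2, not_lt.1 hc⟩)
    · intro j hj
      rcases Nat.find_spec hex with h | ⟨h, h'⟩
      · have := j.2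
        omega
      · rcases hj.lt_or_eq with hlt | heq
        · exact h'.trans (ha.1 ⟨_, h⟩ j hlt).le
        · have : (⟨Nat.find hex, h⟩ : Fin n) = j := Fin.ext heq
          rwa [this] at h'
  by_cases hs : 0 < (-1 : ℤ) ^ (m + 1) * b
  · refine ⟨m, by omega, hs, fun j hj => hm2 j (by omega), ?_⟩
    intro j hj
    refine lt_of_le_of_ne (hm3 j (by omega)) ?_
    intro he
    rcases (abs_eq_abs.1 he) with h | h
    · -- b = a j
      rcases (show m ≤ (j : ℕ) by omega).lt_or_eq with hlt | heq
      · have h1 : m < n := lt_trans hlt j.2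
        have h2 := ha.1 ⟨m, h1⟩ j hlt
        have h3 := hm3 ⟨m, h1⟩ le_rfl
        rw [h] at h3
        exact absurd h2 (not_lt.2 h3)
      · have h2 := ha.2 j
        rw [← heq, ← h] at h2
        exact sgn_not h2 hs
    · exact hab j (by rw [h, neg_neg])
  · refine ⟨m + 1, by omega, sgn_pos b hb (m + 1) hs, fun j hj => hm2 j (by omega), ?_⟩
    intro j hj
    have h1 : m < n := lt_of_lt_of_le (show m < (j : ℕ) by omega) j.2.le
    exact lt_of_le_of_lt (hm3 ⟨m, h1⟩ le_rfl) (ha.1 ⟨m, h1⟩ j (show m < (j : ℕ) by omega))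

theorem cand_unique {n : ℕ} {b : ℤ} {a : Fin n → ℤ} {t t' : ℕ} (ht : Cand b a t)
    (ht' : Cand b a t') (hlt : t < t') (hn : t' ≤ n + 1) : False := by
  have h1 : t + 1 ≠ t' := by
    intro h
    subst h
    exact sgn_not ht.1 ht'.1
  have h2 : t < n := by omega
  have h3 := ht.2.2 ⟨t, h2⟩ (Nat.lt_succ_self t)
  have h4 := ht'.2.1 ⟨t, h2⟩ (show t + 1 < t' by omega)
  exact absurd h3 (not_lt.2 h4.le)

theorem cand_sum {n : ℕ} {b : ℤ} {a : Fin n → ℤ} (ha : Alt a) (hb : b ≠ 0)
    (hab : ∀ j, a j ≠ - b) : ∑ t : Fin (n + 2), ind (Cand b a t) = 1 := by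
  obtain ⟨t, ht, hc⟩ := cand_exists ha hb hab
  rw [Finset.sum_eq_single (⟨t, by omega⟩ : Fin (n + 2))]
  · exact ind_true hc
  · intro t' _ hne
    apply ind_false
    intro hc'
    rcases lt_trichotomy t (t' : ℕ) with h | h | h
    · exact cand_unique hc hc' h (by have := t'.2; omega)
    · exact hne (Fin.ext h.symm)
    · exact cand_unique hc' hc h ht
  · intro h
    exact absurd (Finset.mem_univ _) h

/-- Exchanging `b` with the entry at its place. -/
theorem exch {n : ℕ} {b : ℤ} {a a' : Fin n → ℤ} {k : Fin n} (ha : Alt a)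
    (hc : Cand b a ((k : ℕ) + 1)) (h1 : a' k = b) (h2 : ∀ j, j ≠ k → a' j = a j) :
    Alt a' ∧ Cand (a k) a' ((k : ℕ) + 1) := by
  have hlo : ∀ j : Fin n, j < k → |a j| < |b| := fun j hj => hc.2.1 j (by
    have : (j : ℕ) < k := hj
    omega)
  have hhi : ∀ j : Fin n, k < j → |b| < |a j| := fun j hj => hc.2.2 j (by
    have : (k : ℕ) < j := hj
    omega)
  have hs : 0 < (-1 : ℤ) ^ (k : ℕ) * b := by
    have := hc.1
    rw [pow_succ, pow_succ] at this
    linarith
  refine ⟨⟨?_, ?_⟩, ?_, ?_, ?_⟩
  · intro i j hij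
    by_cases hi : i = k
    · subst hi
      have hj : j ≠ i := hij.ne'
      rw [h1, h2 j hj]
      exact hhi j hij
    · by_cases hj : j = k
      · subst hj
        rw [h1, h2 i hi]
        exact hlo i hij
      · rw [h2 i hi, h2 j hj]
        exact ha.1 i j hij
  · intro i
    by_cases hi : i = k
    · subst hi
      rw [h1]
      exact hs
    · rw [h2 i hi]
      exact ha.2 i
  · have := ha.2 k
    rw [pow_succ, pow_succ]
    linarith
  · intro j hj
    have hj' : j < k := by
      show (j : ℕ) < k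
      omega
    rw [h2 j hj'.ne]
    exact ha.1 j k hj'
  · intro j hj
    have hj' : k < j := by
      show (k : ℕ) < j
      omega
    rw [h2 j hj'.ne']
    exact ha.1 k j hj'

/-- The alternating sequences with `b` in first place, after a change of all signs. -/
theorem alt_first {n : ℕ} (v : Fin (n + 1) → ℤ) :
    Alt (fun i => - v i) ↔ Alt (fun k : Fin n => v k.succ) ∧
      Cand (v 0) (fun k : Fin n => v k.succ) 0 := by
  constructor
  · rintro ⟨h1, h2⟩
    refine ⟨⟨?_, ?_⟩, ?_, ?_, ?_⟩
    · intro i j hij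
      have := h1 i.succ j.succ (Fin.succ_lt_succ_iff.2 hij)
      simpa only [abs_neg] using this
    · intro i
      have := h2 i.succ
      rw [Fin.val_succ, pow_succ] at this
      linarith
    · have := h2 0
      simp only [Fin.val_zero, pow_zero, one_mul] at this
      simpa using this
    · intro j hj
      omega
    · intro j _
      have := h1 0 j.succ (Fin.succ_pos j)
      simpa only [abs_neg] using this
  · rintro ⟨⟨h1, h2⟩, h3, -, h5⟩
    refine ⟨?_, ?_⟩
    · intro i j hij
      simp only [abs_neg]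
      induction j using Fin.cases with
      | zero => exact absurd hij (Fin.not_lt_zero i)
      | succ j =>
        induction i using Fin.cases with
        | zero => exact h5 j (Nat.succ_pos _)
        | succ i => exact h1 i j (Fin.succ_lt_succ_iff.1 hij)
    · intro i
      induction i using Fin.cases with
      | zero => simpa using h3
      | succ i =>
        have := h2 i
        rw [Fin.val_succ, pow_succ]
        linarith

/-- The alternating sequences with `b` in last place. -/
theorem alt_last {n : ℕ} (v : Fin (n + 1) → ℤ) :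
    Alt v ↔ Alt (fun k : Fin n => v k.castSucc) ∧
      Cand (v (Fin.last n)) (fun k : Fin n => v k.castSucc) (n + 1) := by
  constructor
  · rintro ⟨h1, h2⟩
    refine ⟨⟨?_, ?_⟩, ?_, ?_, ?_⟩
    · intro i j hij
      exact h1 i.castSucc j.castSucc (Fin.castSucc_lt_castSucc_iff.2 hij)
    · intro i
      exact h2 i.castSucc
    · have := h2 (Fin.last n)
      rw [Fin.val_last] at this
      rw [pow_succ, pow_succ]
      linarith
    · intro j _
      exact h1 j.castSucc (Fin.last n) (Fin.castSucc_lt_last j)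
    · intro j hj
      have := j.2
      omega
  · rintro ⟨⟨h1, h2⟩, h3, h4, -⟩
    refine ⟨?_, ?_⟩
    · intro i j hij
      induction i using Fin.lastCases with
      | last => exact absurd hij (not_lt.2 (Fin.le_last j))
      | cast i =>
        induction j using Fin.lastCases with
        | last => exact h4 i (by have := i.2; omega)
        | cast j => exact h1 i j (Fin.castSucc_lt_castSucc_iff.1 hij)
    · intro i
      induction i using Fin.lastCases with
      | last =>
        rw [pow_succ, pow_succ] at h3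
        rw [Fin.val_last]
        linarith
      | cast i => exact h2 i

/-- The parity lemma for one simplex. -/
theorem parity {n : ℕ} (l : Fin (n + 1) → ℤ) (h : ∀ i j, l i ≠ - l j) :
    ∑ i : Fin (n + 1), P (fun k : Fin n => l (swap 0 i k.succ)) = P l + P (fun i => - l i) := by
  have h0 : ∀ i, l i ≠ 0 := by
    intro i hi
    exact h i i (by rw [hi, neg_zero])
  -- the left side as a sum over permutations
  have e1 : ∑ i : Fin (n + 1), P (fun k : Fin n => l (swap 0 i k.succ)) =
      ∑ τ : Perm (Fin (n + 1)), ind (Alt (fun k : Fin n => l (τ k.succ))) := by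
    rw [← (Equiv.Perm.decomposeFin (n := n)).symm.sum_comp, Fintype.sum_prod_type]
    refine Finset.sum_congr rfl fun i _ => ?_
    unfold P
    refine Finset.sum_congr rfl fun e _ => ?_
    apply ind_congr
    have : ((fun k : Fin n => l (swap 0 i k.succ)) ∘ e) =
        (fun k : Fin n => l (Equiv.Perm.decomposeFin.symm (i, e) k.succ)) := by
      funext k
      rw [Equiv.Perm.decomposeFin_symm_apply_succ]
      rfl
    rw [this]
  -- each term is the sum over the places of the remaining label
  have e2 : ∀ τ : Perm (Fin (n + 1)), ind (Alt (fun k : Fin n => l (τ k.succ))) =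
      ∑ t : Fin (n + 2), ind (Alt (fun k : Fin n => l (τ k.succ)) ∧
        Cand (l (τ 0)) (fun k : Fin n => l (τ k.succ)) t) := by
    intro τ
    by_cases ha : Alt (fun k : Fin n => l (τ k.succ))
    · rw [ind_true ha, ← cand_sum ha (h0 (τ 0)) (fun j => h _ _)]
      refine Finset.sum_congr rfl fun t _ => ?_
      exact ind_congr ⟨fun hc => ⟨ha, hc⟩, fun hc => hc.2⟩
    · rw [ind_false ha]
      symm
      apply Finset.sum_eq_zero
      intro t _
      exact ind_false (fun hc => ha hc.1)
  rw [e1, Finset.sum_congr rfl (fun τ _ => e2 τ), Finset.sum_comm, Fin.sum_univ_succ,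
    Fin.sum_univ_castSucc]
  -- the first place
  have e3 : ∑ τ : Perm (Fin (n + 1)), ind (Alt (fun k : Fin n => l (τ k.succ)) ∧
      Cand (l (τ 0)) (fun k : Fin n => l (τ k.succ)) ((0 : Fin (n + 2)) : ℕ)) =
      P (fun i => - l i) := by
    unfold P
    refine Finset.sum_congr rfl fun τ _ => ?_
    apply ind_congr
    exact (alt_first (fun i => l (τ i))).symm
  -- the last place
  have e4 : ∑ τ : Perm (Fin (n + 1)), ind (Alt (fun k : Fin n => l (τ k.succ)) ∧
      Cand (l (τ 0)) (fun k : Fin n => l (τ k.succ)) ((Fin.last n).succ : Fin (n + 2))) = P l := by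
    unfold P
    refine Fintype.sum_equiv (Equiv.mulRight (finRotate (n + 1))) _ _ fun τ => ?_
    apply ind_congr
    have := alt_last (l ∘ ((Equiv.mulRight (finRotate (n + 1))) τ))
    rw [this]
    have h5 : ∀ k : Fin n, finRotate (n + 1) k.castSucc = k.succ := by
      intro k
      apply Fin.ext
      rw [coe_finRotate_of_ne_last (Fin.castSucc_lt_last k).ne]
      rfl
    have h6 : finRotate (n + 1) (Fin.last n) = 0 := finRotate_last
    simp only [Equiv.coe_mulRight, Function.comp, Equiv.Perm.mul_apply, h5, h6]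
    rfl
  -- the other places cancel
  have e5 : ∀ k : Fin n, ∑ τ : Perm (Fin (n + 1)), ind (Alt (fun k : Fin n => l (τ k.succ)) ∧
      Cand (l (τ 0)) (fun k : Fin n => l (τ k.succ)) (k.castSucc.succ : Fin (n + 2))) = 0 := by
    intro k
    have key : ∀ τ : Perm (Fin (n + 1)), (Alt (fun k : Fin n => l (τ k.succ)) ∧
        Cand (l (τ 0)) (fun k : Fin n => l (τ k.succ)) ((k : ℕ) + 1)) →
        (Alt (fun j : Fin n => l ((τ * swap 0 k.succ) j.succ)) ∧
        Cand (l ((τ * swap 0 k.succ) 0)) (fun j : Fin n => l ((τ * swap 0 k.succ) j.succ))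
          ((k : ℕ) + 1)) := by
      rintro τ ⟨ha, hc⟩
      have := exch (a' := fun j : Fin n => l ((τ * swap 0 k.succ) j.succ)) ha hc ?_ ?_
      · rw [Equiv.Perm.mul_apply, swap_apply_left]
        exact this
      · simp only [Equiv.Perm.mul_apply, swap_apply_right]
      · intro j hj
        simp only [Equiv.Perm.mul_apply]
        rw [swap_apply_of_ne_of_ne (Fin.succ_ne_zero j) (fun h => hj (Fin.succ_injective _ h))]
    have hinv : ∀ τ : Perm (Fin (n + 1)), τ * swap 0 k.succ * swap 0 k.succ = τ := by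
      intro τ
      rw [mul_assoc, swap_mul_self, mul_one]
    refine Finset.sum_involution (fun τ _ => τ * swap 0 k.succ) ?_ ?_ ?_ ?_
    · intro τ _
      have : ind (Alt (fun j : Fin n => l ((τ * swap 0 k.succ) j.succ)) ∧
          Cand (l ((τ * swap 0 k.succ) 0)) (fun j : Fin n => l ((τ * swap 0 k.succ) j.succ))
          (k.castSucc.succ : Fin (n + 2))) = ind (Alt (fun k : Fin n => l (τ k.succ)) ∧
          Cand (l (τ 0)) (fun k : Fin n => l (τ k.succ)) (k.castSucc.succ : Fin (n + 2))) := by
        apply ind_congr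
        constructor
        · intro h'
          have := key (τ * swap 0 k.succ) h'
          rw [hinv] at this
          exact this
        · intro h'
          exact key τ h'
      rw [this]
      exact CharTwo.add_self_eq_zero _
    · intro τ _ _ he
      have : swap (0 : Fin (n + 1)) k.succ = 1 := mul_left_cancel (he.trans (mul_one τ).symm)
      have h7 := congrArg (fun e : Perm (Fin (n + 1)) => e 0) this
      simp only [swap_apply_left, Equiv.Perm.one_apply] at h7
      exact Fin.succ_ne_zero k h7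
    · intro τ _
      exact Finset.mem_univ _
    · intro τ _
      exact hinv τ
  rw [e3, e4, Finset.sum_congr rfl (fun k _ => e5 k), Finset.sum_const_zero, zero_add, add_comm]

/-- The sign vector number `i` of the maximal chain of an order of the coordinates and of signs. -/
def vec {n : ℕ} (p : Perm (Fin n)) (s : Fin n → ℤˣ) (i : Fin n) : Fin n → ℤ :=
  fun j => if i ≤ p j then ((s j : ℤˣ) : ℤ) else 0

theorem vec_neg {n : ℕ} (p : Perm (Fin n)) (s : Fin n → ℤˣ) (i : Fin n) :
    vec p (fun j => - s j) i = - vec p s i := by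
  funext j
  simp only [vec, Pi.neg_apply]
  by_cases h : i ≤ p j
  · rw [if_pos h, if_pos h, Units.val_neg]
  · rw [if_neg h, if_neg h, neg_zero]

theorem vec_sign {n : ℕ} (p : Perm (Fin n)) (s : Fin n → ℤˣ) (i j : Fin n) :
    vec p s i j = 0 ∨ vec p s i j = 1 ∨ vec p s i j = -1 := by
  simp only [vec]
  by_cases h : i ≤ p j
  · rw [if_pos h]
    rcases Int.units_eq_one_or (s j) with h' | h' <;> rw [h']
    · right; left; rfl
    · right; right; rfl
  · rw [if_neg h]
    left; rfl

theorem vec_ne_zero {n : ℕ} (p : Perm (Fin n)) (s : Fin n → ℤˣ) (i : Fin n) :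
    vec p s i ≠ 0 := by
  intro h
  have := congrFun h (p.symm i)
  simp only [vec, Equiv.apply_symm_apply, le_refl, if_true, Pi.zero_apply] at this
  exact (s (p.symm i)).ne_zero this

theorem vec_mono {n : ℕ} (p : Perm (Fin n)) (s : Fin n → ℤˣ) (i i' j : Fin n) (hi : i ≤ i')
    (h : vec p s i' j ≠ 0) : vec p s i j = vec p s i' j := by
  simp only [vec] at h ⊢
  by_cases h' : i' ≤ p j
  · rw [if_pos h', if_pos (hi.trans h')]
  · rw [if_neg h'] at h
    exact absurd rfl h

/-- The properties of a labelling of the sign vectors. -/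
structure Lab (n : ℕ) (lam : (Fin n → ℤ) → ℤ) : Prop where
  anti : ∀ x, lam (-x) = - lam x
  ne : ∀ x, x ≠ 0 → lam x ≠ 0
  comp : ∀ x y, (∀ i, x i = 0 ∨ x i = 1 ∨ x i = -1) → (∀ i, y i = 0 ∨ y i = 1 ∨ y i = -1) →
    x ≠ 0 → (∀ i, x i ≠ 0 → y i = x i) → lam x ≠ - lam y

theorem Lab.vec {n : ℕ} {lam : (Fin n → ℤ) → ℤ} (h : Lab n lam) (p : Perm (Fin n))
    (s : Fin n → ℤˣ) (i j : Fin n) : lam (vec p s i) ≠ - lam (vec p s j) := by
  rcases le_total i j with hij | hij
  · intro he
    refine h.comp (KL.vec p s j) (KL.vec p s i) (vec_sign p s j) (vec_sign p s i)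
      (vec_ne_zero p s j) (fun k hk => vec_mono p s i j k hij hk) ?_
    rw [he, neg_neg]
  · exact h.comp (KL.vec p s i) (KL.vec p s j) (vec_sign p s i) (vec_sign p s j)
      (vec_ne_zero p s i) (fun k hk => vec_mono p s j i k hij hk)

/-- The number modulo two of the alternating orderings of the labels of maximal chains. -/
noncomputable def A {n : ℕ} (lam : (Fin n → ℤ) → ℤ) : ZMod 2 :=
  ∑ p : Perm (Fin n), ∑ s : Fin n → ℤˣ, P (fun i => lam (vec p s i))

theorem sum_half {n : ℕ} (f : (Fin (n + 1) → ℤˣ) → ZMod 2) :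
    ∑ s, f s = ∑ s : Fin (n + 1) → ℤˣ, ind (s 0 = 1) * (f s + f (fun j => - s j)) := by
  have e1 : ∀ s : Fin (n + 1) → ℤˣ, f s = ind (s 0 = 1) * f s + ind (s 0 = -1) * f s := by
    intro s
    rcases Int.units_eq_one_or (s 0) with h | h
    · rw [ind_true h, ind_false (show ¬ s 0 = -1 by rw [h]; decide)]
      ring
    · rw [ind_true h, ind_false (show ¬ s 0 = 1 by rw [h]; decide)]
      ring
  rw [Finset.sum_congr rfl (fun s _ => e1 s), Finset.sum_add_distrib]
  have e2 : ∑ s : Fin (n + 1) → ℤˣ, ind (s 0 = -1) * f s =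
      ∑ s : Fin (n + 1) → ℤˣ, ind (s 0 = 1) * f (fun j => - s j) := by
    refine Fintype.sum_equiv (Equiv.neg (Fin (n + 1) → ℤˣ)) _ _ fun s => ?_
    have h1 : (fun j => - (Equiv.neg (Fin (n + 1) → ℤˣ)) s j) = s := by
      funext j
      simp only [Equiv.neg_apply, Pi.neg_apply, neg_neg]
    rw [h1]
    congr 1
    apply ind_congr
    simp only [Equiv.neg_apply, Pi.neg_apply]
    constructor
    · intro h
      rw [h, neg_neg]
    · intro h
      rw [← h, neg_neg]
  rw [e2, ← Finset.sum_add_distrib]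
  refine Finset.sum_congr rfl fun s _ => ?_
  ring

/-- The facets without the vector number `i + 1` cancel. -/
theorem facet_succ {n : ℕ} (lam : (Fin (n + 1) → ℤ) → ℤ) (s : Fin (n + 1) → ℤˣ) (i : Fin n) :
    ∑ p : Perm (Fin (n + 1)), P (fun k : Fin n => lam (vec p s (swap 0 i.succ k.succ))) = 0 := by
  have hne : i.castSucc ≠ i.succ := (Fin.castSucc_lt_succ (i := i)).ne
  have key : ∀ (p : Perm (Fin (n + 1))) (m : Fin (n + 1)), m ≠ i.succ →
      vec (swap i.castSucc i.succ * p) s m = vec p s m := by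
    intro p m hm
    funext j
    simp only [vec]
    have h1 : m ≤ (swap i.castSucc i.succ * p) j ↔ m ≤ p j := by
      rw [Equiv.Perm.mul_apply]
      have hm' : (m : ℕ) ≠ (i : ℕ) + 1 := by
        intro h
        apply hm
        apply Fin.ext
        rw [h, Fin.val_succ]
      by_cases h1 : p j = i.castSucc
      · rw [h1, swap_apply_left, Fin.le_def, Fin.le_def, Fin.val_succ, Fin.val_castSucc]
        omega
      · by_cases h2 : p j = i.succ
        · rw [h2, swap_apply_right, Fin.le_def, Fin.le_def, Fin.val_succ, Fin.val_castSucc]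
          omega
        · rw [swap_apply_of_ne_of_ne h1 h2]
    by_cases h2 : m ≤ p j
    · rw [if_pos h2, if_pos (h1.2 h2)]
    · rw [if_neg h2, if_neg (fun h => h2 (h1.1 h))]
  have hsw : ∀ k : Fin n, swap 0 i.succ k.succ ≠ i.succ := by
    intro k h
    have := congrArg (swap (0 : Fin (n + 1)) i.succ) h
    rw [swap_apply_right, swap_apply_self] at this
    exact Fin.succ_ne_zero k this
  refine Finset.sum_involution (fun p _ => swap i.castSucc i.succ * p) ?_ ?_ ?_ ?_
  · intro p _
    have : (fun k : Fin n => lam (vec (swap i.castSucc i.succ * p) s (swap 0 i.succ k.succ))) =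
        (fun k : Fin n => lam (vec p s (swap 0 i.succ k.succ))) := by
      funext k
      rw [key p _ (hsw k)]
    rw [this]
    exact CharTwo.add_self_eq_zero _
  · intro p _ _ he
    have : swap i.castSucc i.succ = 1 := mul_right_cancel (he.trans (one_mul p).symm)
    have h7 := congrArg (fun e : Perm (Fin (n + 1)) => e i.castSucc) this
    simp only [swap_apply_left, Equiv.Perm.one_apply] at h7
    exact hne h7.symm
  · intro p _
    exact Finset.mem_univ _
  · intro p _
    rw [← mul_assoc, swap_mul_self, one_mul]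

/-- The facets without the full vector cancel unless the omitted coordinate is the first one. -/
theorem facet_zero {n : ℕ} (lam : (Fin (n + 1) → ℤ) → ℤ) (p : Perm (Fin (n + 1)))
    (hp : p 0 ≠ 0) :
    ∑ s : Fin (n + 1) → ℤˣ, ind (s 0 = 1) * P (fun k : Fin n => lam (vec p s k.succ)) = 0 := by
  have h0 : p.symm 0 ≠ 0 := by
    intro h
    apply hp
    rw [← h, Equiv.apply_symm_apply, h]
  have key : ∀ (s : Fin (n + 1) → ℤˣ) (k : Fin n),
      vec p (Function.update s (p.symm 0) (- s (p.symm 0))) k.succ = vec p s k.succ := by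
    intro s k
    funext j
    simp only [vec]
    by_cases h : k.succ ≤ p j
    · rw [if_pos h, if_pos h, Function.update_of_ne]
      rintro rfl
      rw [Equiv.apply_symm_apply] at h
      exact absurd h (not_le.2 (Fin.succ_pos k))
    · rw [if_neg h, if_neg h]
  refine Finset.sum_involution
    (fun s _ => Function.update s (p.symm 0) (- s (p.symm 0))) ?_ ?_ ?_ ?_
  · intro s _
    have h1 : (fun k : Fin n => lam (vec p (Function.update s (p.symm 0) (- s (p.symm 0)))
        k.succ)) = (fun k : Fin n => lam (vec p s k.succ)) := by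
      funext k
      rw [key s k]
    rw [h1, Function.update_of_ne h0.symm]
    exact CharTwo.add_self_eq_zero _
  · intro s _ _ he
    have := congrFun he (p.symm 0)
    rw [Function.update_self] at this
    rcases Int.units_eq_one_or (s (p.symm 0)) with h | h <;> rw [h] at this
    · exact absurd this (by decide)
    · exact absurd this (by decide)
  · intro s _
    exact Finset.mem_univ _
  · intro s _
    simp only [Function.update_self, neg_neg, Function.update_idem, Function.update_eq_self]

theorem A_succ {n : ℕ} {lam : (Fin (n + 1) → ℤ) → ℤ} (h : Lab (n + 1) lam) :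
    A lam = A (fun y : Fin n → ℤ => lam (Fin.cons 0 y)) := by
  have e1 : A lam = ∑ p : Perm (Fin (n + 1)), ∑ s : Fin (n + 1) → ℤˣ,
      ∑ i : Fin (n + 1), ind (s 0 = 1) *
        P (fun k : Fin n => lam (vec p s (swap 0 i k.succ))) := by
    unfold A
    refine Finset.sum_congr rfl fun p _ => ?_
    rw [sum_half]
    refine Finset.sum_congr rfl fun s _ => ?_
    rw [← Finset.mul_sum, parity (fun i => lam (vec p s i)) (fun i j => h.vec p s i j)]
    congr 2
    congr 1
    funext i
    rw [vec_neg, h.anti]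
  rw [e1]
  -- only the facets without the full vector
  have e2 : ∑ p : Perm (Fin (n + 1)), ∑ s : Fin (n + 1) → ℤˣ,
      ∑ i : Fin (n + 1), ind (s 0 = 1) *
        P (fun k : Fin n => lam (vec p s (swap 0 i k.succ))) =
      ∑ p : Perm (Fin (n + 1)), ∑ s : Fin (n + 1) → ℤˣ, ind (s 0 = 1) *
        P (fun k : Fin n => lam (vec p s k.succ)) := by
    have e3 : ∀ p : Perm (Fin (n + 1)), ∀ s : Fin (n + 1) → ℤˣ,
        ∑ i : Fin (n + 1), ind (s 0 = 1) *
          P (fun k : Fin n => lam (vec p s (swap 0 i k.succ))) =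
        ind (s 0 = 1) * P (fun k : Fin n => lam (vec p s k.succ)) +
        ∑ i : Fin n, ind (s 0 = 1) *
          P (fun k : Fin n => lam (vec p s (swap 0 i.succ k.succ))) := by
      intro p s
      rw [Fin.sum_univ_succ]
      congr 3
    simp only [e3, Finset.sum_add_distrib]
    have e4 : ∑ p : Perm (Fin (n + 1)), ∑ s : Fin (n + 1) → ℤˣ, ∑ i : Fin n,
        ind (s 0 = 1) * P (fun k : Fin n => lam (vec p s (swap 0 i.succ k.succ))) = 0 := by
      rw [Finset.sum_comm]
      apply Finset.sum_eq_zero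
      intro s _
      rw [Finset.sum_comm]
      apply Finset.sum_eq_zero
      intro i _
      rw [← Finset.mul_sum, facet_succ, mul_zero]
    rw [e4, add_zero]
  rw [e2, ← (Equiv.Perm.decomposeFin (n := n)).symm.sum_comp, Fintype.sum_prod_type,
    Fin.sum_univ_succ]
  have e5 : ∑ i : Fin n, ∑ e : Perm (Fin n), ∑ s : Fin (n + 1) → ℤˣ, ind (s 0 = 1) *
      P (fun k : Fin n => lam (vec (Equiv.Perm.decomposeFin.symm (i.succ, e)) s k.succ)) = 0 := by
    apply Finset.sum_eq_zero
    intro i _
    apply Finset.sum_eq_zero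
    intro e _
    apply facet_zero
    rw [Equiv.Perm.decomposeFin_symm_apply_zero]
    exact Fin.succ_ne_zero i
  rw [e5, add_zero]
  unfold A
  refine Finset.sum_congr rfl fun e _ => ?_
  rw [← (Fin.consEquiv (fun _ : Fin (n + 1) => ℤˣ)).sum_comp, Fintype.sum_prod_type,
    Finset.sum_eq_single (1 : ℤˣ)]
  · refine Finset.sum_congr rfl fun s _ => ?_
    have h1 : ind ((Fin.consEquiv (fun _ : Fin (n + 1) => ℤˣ)) ((1 : ℤˣ), s) 0 = 1) = 1 :=
      ind_true rfl
    rw [h1, one_mul]
    congr 1
    funext k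
    congr 1
    funext j
    simp only [vec]
    induction j using Fin.cases with
    | zero =>
      rw [Equiv.Perm.decomposeFin_symm_apply_zero,
        if_neg (not_le.2 (Fin.succ_pos k)), Fin.cons_zero]
    | succ j =>
      rw [Equiv.Perm.decomposeFin_symm_apply_succ, Fin.cons_succ, swap_self]
      simp only [Equiv.refl_apply, Fin.succ_le_succ_iff]
      rfl
  · intro u _ hu
    apply Finset.sum_eq_zero
    intro s _
    rw [ind_false, zero_mul]
    exact hu
  · intro h'
    exact absurd (Finset.mem_univ _) h'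

theorem Lab.cons {n : ℕ} {lam : (Fin (n + 1) → ℤ) → ℤ} (h : Lab (n + 1) lam) :
    Lab n (fun y : Fin n → ℤ => lam (Fin.cons 0 y)) := by
  have hs : ∀ x : Fin n → ℤ, (∀ i, x i = 0 ∨ x i = 1 ∨ x i = -1) →
      ∀ i : Fin (n + 1), (Fin.cons 0 x : Fin (n + 1) → ℤ) i = 0 ∨
        (Fin.cons 0 x : Fin (n + 1) → ℤ) i = 1 ∨ (Fin.cons 0 x : Fin (n + 1) → ℤ) i = -1 := by
    intro x hx i
    induction i using Fin.cases with
    | zero => left; rfl
    | succ i => exact hx i
  have hz : ∀ x : Fin n → ℤ, x ≠ 0 → (Fin.cons 0 x : Fin (n + 1) → ℤ) ≠ 0 := by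
    intro x hx h0
    apply hx
    funext i
    exact congrFun h0 i.succ
  refine ⟨?_, ?_, ?_⟩
  · intro x
    rw [← h.anti]
    congr 1
    funext i
    induction i using Fin.cases with
    | zero => rfl
    | succ i => rfl
  · intro x hx
    exact h.ne _ (hz x hx)
  · intro x y hx hy h0 hxy
    refine h.comp _ _ (hs x hx) (hs y hy) (hz x h0) ?_
    intro i hi
    induction i using Fin.cases with
    | zero => rfl
    | succ i => exact hxy i hi

theorem A_eq_one : ∀ (n : ℕ) (lam : (Fin n → ℤ) → ℤ), Lab n lam → A lam = 1 := by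
  intro n
  induction n with
  | zero =>
    intro lam _
    unfold A P
    rw [Fintype.sum_unique, Fintype.sum_unique, Fintype.sum_unique]
    exact ind_true ⟨fun i => i.elim0, fun i => i.elim0⟩
  | succ n ih =>
    intro lam h
    rw [A_succ h]
    exact ih _ h.cons

theorem alt_large {n : ℕ} {a : Fin n → ℤ} (ha : Alt a) (i : Fin n) :
    ((i : ℕ) : ℤ) + 1 ≤ |a i| := by
  obtain ⟨i, hi⟩ := i
  induction i with
  | zero =>
    have := ha.2 ⟨0, hi⟩
    have h1 : a ⟨0, hi⟩ ≠ 0 := by
      intro h
      rw [h, mul_zero] at this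
      exact lt_irrefl _ this
    have h2 := abs_pos.2 h1
    show ((0 : ℕ) : ℤ) + 1 ≤ _
    push_cast
    linarith
  | succ i ih =>
    have h1 := ih (by omega)
    have h2 := ha.1 ⟨i, by omega⟩ ⟨i + 1, hi⟩ (Nat.lt_succ_self i)
    show ((i + 1 : ℕ) : ℤ) + 1 ≤ _
    have h3 : ((i : ℕ) : ℤ) + 1 ≤ |a ⟨i, by omega⟩| := h1
    push_cast
    linarith

/-- The octahedral Tucker lemma: a labelling of the sign vectors with antipodal nonzero labels and
without complementary comparable pairs has a label of absolute value at least `n`. -/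
theorem tucker (n : ℕ) (hn : 0 < n) (lam : (Fin n → ℤ) → ℤ)
    (h1 : ∀ x, lam (-x) = - lam x) (h2 : ∀ x, x ≠ 0 → lam x ≠ 0)
    (h3 : ∀ x y, (∀ i, x i = 0 ∨ x i = 1 ∨ x i = -1) → (∀ i, y i = 0 ∨ y i = 1 ∨ y i = -1) →
      x ≠ 0 → (∀ i, x i ≠ 0 → y i = x i) → lam x ≠ - lam y) :
    ∃ x, (∀ i, x i = 0 ∨ x i = 1 ∨ x i = -1) ∧ x ≠ 0 ∧ (n : ℤ) ≤ |lam x| := by
  have hA := A_eq_one n lam ⟨h1, h2, h3⟩
  have hne : A lam ≠ 0 := by
    rw [hA]
    exact one_ne_zero
  unfold A at hne
  obtain ⟨p, -, hp⟩ := Finset.exists_ne_zero_of_sum_ne_zero hne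
  obtain ⟨s, -, hs⟩ := Finset.exists_ne_zero_of_sum_ne_zero hp
  unfold P at hs
  obtain ⟨r, -, hr⟩ := Finset.exists_ne_zero_of_sum_ne_zero hs
  have ha := ind_ne_zero hr
  have := alt_large ha ⟨n - 1, by omega⟩
  refine ⟨vec p s (r ⟨n - 1, by omega⟩), vec_sign p s _, vec_ne_zero p s _, ?_⟩
  have h4 : (((⟨n - 1, by omega⟩ : Fin n) : ℕ) : ℤ) + 1 = n := by
    show ((n - 1 : ℕ) : ℤ) + 1 = n
    omega
  rw [h4] at this
  exact this

end Pool.Agent.H.MP_0447ec_lc.KL
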